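import Pool.Agent.Lib.MP_392c14_co.Ev.PA.Final

/-! The upper bound of the Turan density of `K_4^-`. -/

set_option autoImplicit false

namespace K4m

theorem rho_lt : rho < 28572 / 100000 := by
  have h := Ev.PA.rho_lt
  norm_num at h ⊢
  exact h

end K4m
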